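import Pool.Agent.Helper52.KT.St

/-!
# Project KT: module A4 (unhealthy mass)
-/

set_option autoImplicit false

namespace Pool.Agent.Helper31.KT

open Pool.Agent.Helper26.Kempe Pool.Agent.Helper52.KT Pool.Agent.Helper52.KT.St
open Pool.Agent.Helper52.KR (N Zc Mn Hs)
open scoped Classical

theorem Wt_nonneg_A4 {V : Type} (w : V → V → ℝ) (ρ : V → ℝ) (hw : ∀ a b, 0 ≤ w a b)
    (hρ : ∀ z, 0 ≤ ρ z) : ∀ P : List V, 0 ≤ Wt w ρ P
  | [] => by simp [Wt]
  | [_] => by simp [Wt]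
  | b :: a :: L => by
    have h := Wt_nonneg_A4 w ρ hw hρ (a :: L)
    simp only [Wt]
    exact mul_nonneg (div_nonneg (hw a b) (hρ a)) h

theorem Ex_trans_A4 {V : Type} [Fintype V] {e : List V → Finset V} {R0 R : List V} {s : ℕ}
    (hR : R ∈ Ex e R0 s) : ∀ (m : ℕ) (P : List V), P ∈ Ex e R m → P ∈ Ex e R0 (s + m) := by
  intro m
  induction m with
  | zero =>
    intro P hP
    simp only [Ex, Finset.mem_singleton] at hP
    subst hP
    exact hR
  | succ m ih =>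
    intro P hP
    obtain ⟨P', hP', b, hb, rfl⟩ := mem_Ex_succ.1 hP
    exact mem_Ex_succ.2 ⟨P', ih P' hP', b, hb, rfl⟩

theorem hA4 : A4 := by
  intro hA1 hA2 V _ v e w ρ Y β r0 r1 lam η B t hw hρ hr0 hlam hY1 hY2 hβ hB hη
  have hw0 : ∀ a b, 0 ≤ w a b := fun a b => (hw a b).1
  have hρ0 : ∀ z, 0 ≤ ρ z := fun z => hr0.le.trans (hρ z).1
  have hWt := Wt_nonneg_A4 w ρ hw0 hρ0
  have hr1 : 0 ≤ r1 := (hρ0 v).trans (hρ v).2
  -- Markov
  have h1 : ∑ P ∈ (Ex e [v] t).filter (fun P =>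
      η < ∑ m ∈ Finset.range t, β (P.drop (m + 1)) (hd v P)), Wt w ρ P ≤
      ∑ P ∈ Ex e [v] t, η⁻¹ * (Wt w ρ P * ∑ m ∈ Finset.range t, β (P.drop (m + 1)) (hd v P)) := by
    calc ∑ P ∈ (Ex e [v] t).filter (fun P =>
        η < ∑ m ∈ Finset.range t, β (P.drop (m + 1)) (hd v P)), Wt w ρ P
        ≤ ∑ P ∈ (Ex e [v] t).filter (fun P =>
        η < ∑ m ∈ Finset.range t, β (P.drop (m + 1)) (hd v P)),
          η⁻¹ * (Wt w ρ P * ∑ m ∈ Finset.range t, β (P.drop (m + 1)) (hd v P)) := by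
          apply Finset.sum_le_sum
          intro P hP
          rw [Finset.mem_filter] at hP
          have h2 := hP.2
          have h3 := hWt P
          have h4 : 1 ≤ η⁻¹ * ∑ m ∈ Finset.range t, β (P.drop (m + 1)) (hd v P) := by
            rw [inv_mul_eq_div, le_div_iff₀ hη, one_mul]
            exact h2.le
          calc Wt w ρ P = Wt w ρ P * 1 := (mul_one _).symm
            _ ≤ Wt w ρ P * (η⁻¹ * ∑ m ∈ Finset.range t, β (P.drop (m + 1)) (hd v P)) :=
              mul_le_mul_of_nonneg_left h4 h3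
            _ = η⁻¹ * (Wt w ρ P * ∑ m ∈ Finset.range t, β (P.drop (m + 1)) (hd v P)) := by ring
      _ ≤ _ := by
          apply Finset.sum_le_sum_of_subset_of_nonneg (Finset.filter_subset _ _)
          intro P _ _
          apply mul_nonneg (inv_nonneg.2 hη.le)
          exact mul_nonneg (hWt P) (Finset.sum_nonneg (fun m _ => hβ _ _))
  have h2 : ∑ P ∈ Ex e [v] t, η⁻¹ * (Wt w ρ P * ∑ m ∈ Finset.range t,
      β (P.drop (m + 1)) (hd v P)) = ∑ m ∈ Finset.range t, η⁻¹ *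
        ∑ P ∈ Ex e [v] t, Wt w ρ P * β (P.drop (m + 1)) (hd v P) := by
    have h3 : ∀ P ∈ Ex e [v] t, η⁻¹ * (Wt w ρ P * ∑ m ∈ Finset.range t,
        β (P.drop (m + 1)) (hd v P)) = ∑ m ∈ Finset.range t,
          η⁻¹ * (Wt w ρ P * β (P.drop (m + 1)) (hd v P)) := by
      intro P _
      rw [Finset.mul_sum, Finset.mul_sum]
    rw [Finset.sum_congr rfl h3, Finset.sum_comm]
    apply Finset.sum_congr rfl
    intro m _
    rw [Finset.mul_sum]
  refine h1.trans (h2.le.trans ?_)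
  apply Finset.sum_le_sum
  intro m hm
  rw [Finset.mem_range] at hm
  obtain ⟨s, hs⟩ : ∃ s, s = t - 1 - m := ⟨_, rfl⟩
  rw [← hs]
  have hts : t = s + (m + 1) := by omega
  have h4 := hA2 V e [v] s (m + 1) (fun P => Wt w ρ P * β (P.drop (m + 1)) (hd v P))
    (fun P => mul_nonneg (hWt P) (hβ _ _))
  rw [← hts] at h4
  have h5 : ∀ R ∈ Ex e [v] s, ∑ P ∈ Ex e R (m + 1), Wt w ρ P * β (P.drop (m + 1)) (hd v P) ≤
      B * r1 / (r0 ^ 2 * lam ^ m) * Wt w ρ R := by
    intro R hR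
    have hlen := Ex_length hR
    obtain ⟨r, R', rfl⟩ : ∃ r R', R = r :: R' := by
      cases R with
      | nil => simp at hlen; omega
      | cons r R' => exact ⟨r, R', rfl⟩
    have hA1' := hA1 V v e w ρ Y r0 lam r R' hw (fun z => (hρ z).1) hr0 hlam hY1
      (by
        intro m' P hP b hb
        exact hY2 (s + m') P (Ex_trans_A4 hR m' P hP) b hb) (hWt _) m
    have h6 : ∑ P ∈ Ex e (r :: R') (m + 1), Wt w ρ P * β (P.drop (m + 1)) (hd v P) =
        ∑ z : V, β (r :: R') z *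
          ∑ P ∈ (Ex e (r :: R') (m + 1)).filter (fun P => hd v P = z), Wt w ρ P := by
      rw [← Finset.sum_fiberwise (Ex e (r :: R') (m + 1)) (fun P => hd v P)]
      apply Finset.sum_congr rfl
      intro z _
      rw [Finset.mul_sum]
      apply Finset.sum_congr rfl
      intro P hP
      rw [Finset.mem_filter] at hP
      rw [Ex_drop hP.1, hP.2]
      ring
    rw [h6]
    have hc : 0 ≤ r1 / (r0 ^ 2 * lam ^ m) * Wt w ρ (r :: R') :=
      mul_nonneg (div_nonneg hr1 (by positivity)) (hWt _)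
    calc ∑ z : V, β (r :: R') z *
          ∑ P ∈ (Ex e (r :: R') (m + 1)).filter (fun P => hd v P = z), Wt w ρ P
        ≤ ∑ z : V, β (r :: R') z * (r1 / (r0 ^ 2 * lam ^ m) * Wt w ρ (r :: R')) := by
          apply Finset.sum_le_sum
          intro z _
          apply mul_le_mul_of_nonneg_left _ (hβ _ _)
          refine (hA1' z).trans ?_
          have h7 : Wt w ρ (r :: R') * ρ z / (r0 ^ 2 * lam ^ m) =
              ρ z / (r0 ^ 2 * lam ^ m) * Wt w ρ (r :: R') := by ring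
          rw [h7]
          apply mul_le_mul_of_nonneg_right _ (hWt _)
          exact div_le_div_of_nonneg_right (hρ z).2 (by positivity)
      _ = (∑ z : V, β (r :: R') z) * (r1 / (r0 ^ 2 * lam ^ m) * Wt w ρ (r :: R')) := by
          rw [Finset.sum_mul]
      _ ≤ B * (r1 / (r0 ^ 2 * lam ^ m) * Wt w ρ (r :: R')) :=
          mul_le_mul_of_nonneg_right (hB s _ hR) hc
      _ = B * r1 / (r0 ^ 2 * lam ^ m) * Wt w ρ (r :: R') := by ring
  have h6 := h4.trans (Finset.sum_le_sum h5)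
  rw [← Finset.mul_sum] at h6
  calc η⁻¹ * ∑ P ∈ Ex e [v] t, Wt w ρ P * β (P.drop (m + 1)) (hd v P)
      ≤ η⁻¹ * (B * r1 / (r0 ^ 2 * lam ^ m) * ∑ P ∈ Ex e [v] s, Wt w ρ P) :=
        mul_le_mul_of_nonneg_left h6 (inv_nonneg.2 hη.le)
    _ = B * r1 / (η * r0 ^ 2 * lam ^ m) * ∑ P ∈ Ex e [v] s, Wt w ρ P := by
        have : lam ≠ 0 := hlam.ne'
        field_simp

end Pool.Agent.Helper31.KT
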