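import Pool.Agent.Helper7.KT.St

set_option autoImplicit false

namespace Pool.Agent.Helper31.KT

open Finset SimpleGraph Filter Topology
open EX Pool.Agent.Helper7.KT
open scoped Classical

theorem sum_fib {α β : Type} [Fintype α] [Fintype β] (E : Finset (α × β)) :
    ∑ v : β, (univ.filter fun u : α => (u, v) ∈ E).card = E.card := by
  rw [Finset.card_eq_sum_card_fiberwise (f := Prod.snd) (t := univ) (by intro x _; simp)]
  refine Finset.sum_congr rfl fun v _ => ?_
  refine Finset.card_bij (fun u _ => (u, v)) ?_ ?_ ?_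
  · intro u hu
    simp only [mem_filter, mem_univ, true_and] at hu ⊢
    exact ⟨hu, trivial⟩
  · intro a _ b _ h
    exact (Prod.ext_iff.1 h).1
  · intro p hp
    simp only [mem_filter] at hp
    refine ⟨p.1, ?_, ?_⟩
    · simp only [mem_filter, mem_univ, true_and]
      rw [← hp.2]
      exact hp.1
    · rw [← hp.2]

theorem pw_mean {β : Type} [Fintype β] [Nonempty β] (d : β → ℝ) (hd : ∀ v, 0 ≤ d v) (m : ℕ) (A : ℝ)
    (hA : 0 ≤ A) (h : A * (Fintype.card β : ℝ) ≤ ∑ v, d v) :
    A ^ m * (Fintype.card β : ℝ) ≤ ∑ v, d v ^ m := by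
  have hn : (0 : ℝ) < (Fintype.card β : ℝ) := by exact_mod_cast Fintype.card_pos
  have h1 := Real.pow_arith_mean_le_arith_mean_pow (univ : Finset β)
    (fun _ => (Fintype.card β : ℝ)⁻¹) d (fun _ _ => by positivity)
    (by rw [Finset.sum_const, Finset.card_univ, nsmul_eq_mul]; field_simp) (fun v _ => hd v) m
  rw [← Finset.mul_sum, ← Finset.mul_sum] at h1
  have h2 : A ≤ (Fintype.card β : ℝ)⁻¹ * ∑ v, d v := by
    rw [inv_mul_eq_div, le_div_iff₀ hn]
    exact h
  have h3 : A ^ m ≤ (Fintype.card β : ℝ)⁻¹ * ∑ v, d v ^ m :=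
    (pow_le_pow_left₀ hA h2 m).trans h1
  rw [inv_mul_eq_div, le_div_iff₀ hn] at h3
  exact h3

theorem noninj (ι : Type) [Fintype ι] (n : ℕ) :
    (univ.filter fun u : ι → Fin n => ¬ Function.Injective u).card * n ≤
      (Fintype.card ι) ^ 2 * n ^ (Fintype.card ι) := by
  have h1 : (univ.filter fun u : ι → Fin n => ¬ Function.Injective u) ⊆
      (univ : Finset (ι × ι)).biUnion fun p =>
        univ.filter fun u : ι → Fin n => p.1 ≠ p.2 ∧ u p.1 = u p.2 := by
    intro u hu
    simp only [mem_filter, mem_univ, true_and] at hu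
    simp only [Function.Injective, not_forall] at hu
    obtain ⟨a, b, h, hne⟩ := hu
    simp only [mem_biUnion, mem_filter, mem_univ, true_and, Prod.exists]
    exact ⟨a, b, hne, h⟩
  have h2 : ∀ p : ι × ι, (univ.filter fun u : ι → Fin n => p.1 ≠ p.2 ∧ u p.1 = u p.2).card * n ≤
      n ^ (Fintype.card ι) := by
    intro p
    by_cases hp : p.1 = p.2
    · have : (univ.filter fun u : ι → Fin n => p.1 ≠ p.2 ∧ u p.1 = u p.2) = ∅ := by
        ext u
        simp [hp]
      rw [this]
      simp
    · have h3 : n ^ (Fintype.card ι) = (univ : Finset (ι → Fin n)).card := by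
        rw [Finset.card_univ]
        simp
      have h4 : (univ.filter fun u : ι → Fin n => p.1 ≠ p.2 ∧ u p.1 = u p.2).card * n =
          ((univ.filter fun u : ι → Fin n => p.1 ≠ p.2 ∧ u p.1 = u p.2) ×ˢ
            (univ : Finset (Fin n))).card := by
        rw [card_product, Finset.card_univ, Fintype.card_fin]
      rw [h3, h4]
      refine Finset.card_le_card_of_injOn (fun q => Function.update q.1 p.2 q.2)
        (fun _ _ => by simp) ?_
      intro q hq q' hq' he
      simp only [coe_product, coe_filter, mem_univ, true_and, Set.mem_prod, Set.mem_ofPred_eq,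
        coe_univ, Set.mem_univ, and_true] at hq hq'
      simp only at he
      have h5 : ∀ i, i ≠ p.2 → q.1 i = q'.1 i := by
        intro i hi
        have h6 := congrFun he i
        rwa [Function.update_of_ne hi, Function.update_of_ne hi] at h6
      have h7 : q.2 = q'.2 := by
        have h6 := congrFun he p.2
        simpa using h6
      refine Prod.ext ?_ h7
      funext i
      by_cases hi : i = p.2
      · rw [hi, ← hq.2, ← hq'.2]
        exact h5 _ hp
      · exact h5 i hi
  calc (univ.filter fun u : ι → Fin n => ¬ Function.Injective u).card * n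
      ≤ (∑ p : ι × ι, (univ.filter fun u : ι → Fin n => p.1 ≠ p.2 ∧ u p.1 = u p.2).card) * n :=
        Nat.mul_le_mul_right _ ((card_le_card h1).trans card_biUnion_le)
    _ = ∑ p : ι × ι, (univ.filter fun u : ι → Fin n => p.1 ≠ p.2 ∧ u p.1 = u p.2).card * n := by
        rw [Finset.sum_mul]
    _ ≤ ∑ _p : ι × ι, n ^ (Fintype.card ι) := Finset.sum_le_sum fun p _ => h2 p
    _ = (Fintype.card ι) ^ 2 * n ^ (Fintype.card ι) := by
        rw [Finset.sum_const, Finset.card_univ, Fintype.card_prod, smul_eq_mul]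
        ring

theorem hCOM : StCOM := by
  intro ι _ η hη
  set m := Fintype.card ι with hm
  have hη' : 0 < η ^ m / 2 := by positivity
  filter_upwards [eventually_ge_atTop 1, eventually_gt_atTop ⌈(m : ℝ) ^ 2 / (η ^ m / 2)⌉₊]
    with n hn1 hn2 E hE
  by_contra hcon
  push Not at hcon
  have : Nonempty (Fin n) := ⟨⟨0, hn1⟩⟩
  have hn0 : (0 : ℝ) < n := by exact_mod_cast hn1
  have hbig : (m : ℝ) ^ 2 < η ^ m / 2 * n := by
    have h1 : (m : ℝ) ^ 2 / (η ^ m / 2) < n :=
      (Nat.le_ceil _).trans_lt (by exact_mod_cast hn2)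
    rw [div_lt_iff₀ hη'] at h1
    linarith
  set c : (ι → Fin n) → ℕ := fun u => (univ.filter fun v => ∀ i, (u i, v) ∈ E).card with hc
  set d : Fin n → ℕ := fun v => (univ.filter fun u : Fin n => (u, v) ∈ E).card with hd
  have hsum : ∑ v, d v = E.card := by
    rw [← sum_fib E]
    refine Finset.sum_congr rfl fun v _ => ?_
    simp only [hd]
    congr 1
    ext u
    simp only [mem_filter, mem_univ, true_and]
  have hP : ∑ v, d v ^ m = ∑ u, c u := by
    have h1 : ∀ v, d v ^ m = ∑ u : ι → Fin n, if ∀ i, (u i, v) ∈ E then 1 else 0 := by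
      intro v
      rw [← Finset.card_filter]
      have h2 : (univ.filter fun u : ι → Fin n => ∀ i, (u i, v) ∈ E) =
          Fintype.piFinset fun _ : ι => (univ.filter fun u : Fin n => (u, v) ∈ E) := by
        ext u
        simp [Fintype.mem_piFinset]
      rw [h2, Fintype.card_piFinset, Finset.prod_const, Finset.card_univ]
    rw [Finset.sum_congr rfl fun v _ => h1 v, Finset.sum_comm]
    refine Finset.sum_congr rfl fun u _ => ?_
    rw [← Finset.card_filter]
  have hlow : (η * n) ^ m * (n : ℝ) ≤ ∑ v, (d v : ℝ) ^ m := by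
    have h1 := pw_mean (fun v : Fin n => (d v : ℝ)) (fun v => by positivity) m (η * n)
      (by positivity) (by
        rw [Fintype.card_fin]
        have h2 : (∑ v, (d v : ℝ)) = (E.card : ℝ) := by
          rw [← hsum]
          push_cast
          rfl
        rw [h2]
        nlinarith [hE])
    rwa [Fintype.card_fin] at h1
  have hlow2 : (∑ v, (d v : ℝ) ^ m) = ∑ u, (c u : ℝ) := by
    exact_mod_cast hP
  have hup : ∑ u, (c u : ℝ) ≤ ∑ u : ι → Fin n,
      (η ^ m / 2 * n + if ¬ Function.Injective u then (n : ℝ) else 0) := by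
    refine Finset.sum_le_sum fun u _ => ?_
    by_cases hu : Function.Injective u
    · have h1 := (hcon u hu).le
      simp only [hu, not_true_eq_false, if_false, add_zero]
      exact h1
    · simp only [hu, not_false_eq_true, if_true]
      have h1 : c u ≤ n := by
        have := Finset.card_le_univ (univ.filter fun v => ∀ i, (u i, v) ∈ E)
        rwa [Fintype.card_fin] at this
      have h2 : (c u : ℝ) ≤ n := by exact_mod_cast h1
      have h3 : 0 ≤ η ^ m / 2 * n := by positivity
      linarith
  have hcnt : ∑ u : ι → Fin n, (η ^ m / 2 * n + if ¬ Function.Injective u then (n : ℝ) else 0) =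
      (n : ℝ) ^ m * (η ^ m / 2 * n) +
        ((univ.filter fun u : ι → Fin n => ¬ Function.Injective u).card : ℝ) * n := by
    rw [Finset.sum_add_distrib, Finset.sum_const, Finset.card_univ, nsmul_eq_mul,
      ← Finset.sum_filter, Finset.sum_const, nsmul_eq_mul]
    congr 2
    rw [Fintype.card_fun, Fintype.card_fin]
    push_cast
    rfl
  have hni : ((univ.filter fun u : ι → Fin n => ¬ Function.Injective u).card : ℝ) * n ≤
      (m : ℝ) ^ 2 * (n : ℝ) ^ m := by
    exact_mod_cast noninj ι n
  have hpos : (0 : ℝ) < (n : ℝ) ^ m := by positivity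
  have h9 : (m : ℝ) ^ 2 * (n : ℝ) ^ m < η ^ m / 2 * n * (n : ℝ) ^ m :=
    mul_lt_mul_of_pos_right hbig hpos
  rw [hlow2] at hlow
  rw [hcnt] at hup
  rw [mul_pow] at hlow
  nlinarith [hlow, hup, hni, h9]

end Pool.Agent.Helper31.KT
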