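import Pool.Agent.Helper52.KT.St

/-!
# Project KT: module FS (first step)
-/

set_option autoImplicit false

namespace Pool.Agent.Helper31.KT

open Pool.Agent.Helper26.Kempe Pool.Agent.Helper52.KT Pool.Agent.Helper52.KT.St
open Pool.Agent.Helper52.KR (N Zc Mn Hs)
open scoped Classical

theorem hFS : FS := by
  intro hST hLR V _ k G W M D φ f o v hMn hv hW hM hD hφ
  have hf : Proper G f := hMn.1
  refine ⟨?_, ?_⟩
  swap
  · intro y
    apply wt_zero
    rintro ⟨_, h, _⟩
    exact h hv
  -- every colour occurs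
  have hocc : ∀ c : Fin k, c ≠ o → 1 ≤ (S G f v c).card := by
    intro c hc
    by_contra hcon
    have h0 : S G f v c = ∅ := by
      rw [← Finset.card_eq_zero]; omega
    obtain ⟨g, hg1, _, hg3⟩ := hLR hST V k G W M o [] f v c {v} hf (vd_single.2 hv) hc
      (by rw [hv]; exact hc) (Finset.mem_singleton_self v)
      (by intro x hx; rw [Finset.mem_singleton] at hx; left; rw [hx])
      (by
        intro x hx y hxy hcol
        rw [Finset.mem_singleton] at hx
        subst hx
        rcases hcol with h | h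
        · exact absurd h.symm (hf x y hxy)
        · exfalso
          have : y ∈ S G f x c := mem_S.2 ⟨hxy, h⟩
          rw [h0] at this
          simp at this)
      (by intro x _; simp) (by intro x _; simp [Fb]) (fun _ => rfl)
    have := hMn.2 g hg1
    omega
  obtain ⟨Γ, hΓ⟩ : ∃ Γ : Finset (Fin k), Γ = Finset.univ.filter (fun c => c ≠ o) := ⟨_, rfl⟩
  have hΓcard : (Γ.card : ℝ) = (k : ℝ) - 1 := by
    have h1 : Γ = Finset.univ.erase o := by
      rw [hΓ]; ext c; simp
    rw [h1, Finset.card_erase_of_mem (Finset.mem_univ _), Finset.card_univ, Fintype.card_fin]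
    have h2 : 1 ≤ k := by
      have := o.2
      omega
    push_cast [Nat.cast_sub h2]
    ring
  obtain ⟨A, hA⟩ : ∃ A : Finset (Fin k), A = Γ.filter (fun c => (S G f v c).card = 1) := ⟨_, rfl⟩
  have hsum : ∑ c ∈ Γ, (S G f v c).card ≤ D := by
    have h1 : (N G v).card = ∑ c : Fin k, (S G f v c).card := by
      rw [Finset.card_eq_sum_card_fiberwise (f := f) (s := N G v) (t := Finset.univ)
        (fun x _ => Finset.mem_coe.2 (Finset.mem_univ _))]
      apply Finset.sum_congr rfl
      intro c _
      congr 1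
      ext y
      simp [S, Pool.Agent.Helper52.KR.N]
    calc ∑ c ∈ Γ, (S G f v c).card ≤ ∑ c : Fin k, (S G f v c).card :=
          Finset.sum_le_sum_of_subset (Finset.subset_univ _)
      _ = (N G v).card := h1.symm
      _ ≤ D := hD v
  have hA2 : 2 * ((k : ℝ) - 1) - D ≤ A.card := by
    have h1 : ∀ c ∈ Γ, 2 ≤ (S G f v c).card + (if (S G f v c).card = 1 then 1 else 0) := by
      intro c hc
      rw [hΓ, Finset.mem_filter] at hc
      have := hocc c hc.2
      split_ifs <;> omega
    have h2 := Finset.sum_le_sum h1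
    rw [Finset.sum_const, smul_eq_mul, Finset.sum_add_distrib, ← Finset.card_filter, ← hA] at h2
    have h3 : (Γ.card * 2 : ℝ) ≤ D + A.card := by
      have : Γ.card * 2 ≤ D + A.card := by omega
      exact_mod_cast this
    rw [hΓcard] at h3
    linarith
  obtain ⟨B1, hB1⟩ : ∃ B1 : Finset V, B1 = Finset.univ.filter (fun b => G.Adj v b ∧ f b ≠ o ∧
    (S G f v (f b)).card = 1) := ⟨_, rfl⟩
  have hAB : A.card ≤ B1.card := by
    have h1 : A ⊆ B1.image f := by
      intro c hc
      rw [hA, Finset.mem_filter, hΓ, Finset.mem_filter] at hc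
      obtain ⟨⟨_, hco⟩, hc1⟩ := hc
      have hne : (S G f v c).Nonempty := Finset.card_pos.1 (by omega)
      obtain ⟨b, hb⟩ := hne
      obtain ⟨h2, h3⟩ := mem_S.1 hb
      rw [Finset.mem_image]
      refine ⟨b, ?_, h3⟩
      rw [hB1, Finset.mem_filter]
      exact ⟨Finset.mem_univ _, h2, by rw [h3]; exact hco, by rw [h3]; exact hc1⟩
    exact (Finset.card_le_card h1).trans Finset.card_image_le
  have hBB : ∀ b ∈ B1, b ∈ ext G W M f o [v] ∧ wt G W M φ f o v b = φ 1 := by
    intro b hb
    rw [hB1, Finset.mem_filter] at hb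
    obtain ⟨_, hvb, hbo, hcard⟩ := hb
    have hS : ∀ y, y ∈ S G f v (f b) → y = b := by
      intro y hy
      obtain ⟨a, ha⟩ := Finset.card_eq_one.1 hcard
      have hb' : b ∈ S G f v (f b) := mem_S.2 ⟨hvb, rfl⟩
      rw [ha, Finset.mem_singleton] at hy hb'
      rw [hy, hb']
    have hBc : Bc G f v b = {v} := by
      apply Finset.eq_singleton_iff_unique_mem.2
      refine ⟨self_mem_Bc v b, ?_⟩
      apply Bc_induct (p := fun x => x = v) rfl
      intro x y _ hx hxy hyb hcol
      subst hx
      exfalso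
      rcases hcol with h | h
      · exact hf x y hxy h.symm
      · exact hyb (hS y (mem_S.2 ⟨hxy, h⟩))
    have harc : Arc G W M f o v b := by
      refine ⟨hvb, hbo, ?_, ?_, fun _ => hBc⟩
      · rw [hBc]; simpa using hM
      · rw [hBc]
        intro x hx
        rw [Finset.mem_singleton] at hx
        rw [hx]; exact hW
    refine ⟨?_, ?_⟩
    · rw [mem_ext, vd_cons]
      refine ⟨harc, ?_, ?_, vd_single.2 hv⟩
      · rw [List.mem_singleton]
        intro h
        exact hvb.ne h.symm
      · intro κ _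
        exact ⟨by simp, by simp [Fb]⟩
    · rw [wt_arc harc, hBc]
      simp
  have hfin : (B1.card : ℝ) * φ 1 ≤ ∑ b ∈ ext G W M f o [v], wt G W M φ f o v b := by
    calc (B1.card : ℝ) * φ 1 = ∑ b ∈ B1, wt G W M φ f o v b := by
          rw [Finset.sum_congr rfl (fun b hb => (hBB b hb).2), Finset.sum_const, nsmul_eq_mul]
      _ ≤ ∑ b ∈ ext G W M f o [v], wt G W M φ f o v b :=
          Finset.sum_le_sum_of_subset_of_nonneg (fun b hb => (hBB b hb).1)
            (fun b _ _ => wt_nonneg hφ v b)
  have hAB' : (A.card : ℝ) ≤ B1.card := by exact_mod_cast hAB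
  calc φ 1 * (2 * ((k : ℝ) - 1) - D) ≤ φ 1 * B1.card :=
        mul_le_mul_of_nonneg_left (hA2.trans hAB') (hφ 1)
    _ = (B1.card : ℝ) * φ 1 := mul_comm _ _
    _ ≤ _ := hfin

end Pool.Agent.Helper31.KT
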