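import Pool.Agent.Helper7.KT.St

set_option autoImplicit false

namespace Pool.Agent.Helper31.KT

open Finset SimpleGraph Filter Topology
open EX Pool.Agent.Helper7.KT
open scoped Classical

theorem card_pair_le {V : Type} [Fintype V] (H : Finset (Finset V)) (hH : ∀ E ∈ H, E.card = 3)
    (u v : V) (huv : u ≠ v) : (H.filter fun E => u ∈ E ∧ v ∈ E).card ≤ cd H u v := by
  unfold cd
  refine (card_le_card (t := (univ.filter fun w => T3 H u v w).image
    fun w => ({u, v, w} : Finset V)) ?_).trans card_image_le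
  intro E hE
  simp only [mem_filter] at hE
  obtain ⟨hE1, hE2, hE3⟩ := hE
  have hc := hH E hE1
  have h1 : ((E.erase u).erase v).card = 1 := by
    rw [card_erase_of_mem (mem_erase.2 ⟨huv.symm, hE3⟩), card_erase_of_mem hE2, hc]
  obtain ⟨w, hw⟩ := card_eq_one.1 h1
  have hw1 : w ∈ (E.erase u).erase v := by
    rw [hw]
    exact mem_singleton_self w
  simp only [mem_erase] at hw1
  have hEq : E = {u, v, w} := by
    rw [← insert_erase hE2, ← insert_erase (mem_erase.2 ⟨huv.symm, hE3⟩), hw]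
  refine mem_image.2 ⟨w, ?_, hEq.symm⟩
  simp only [mem_filter, mem_univ, true_and]
  refine ⟨huv, fun h => hw1.2.1 h.symm, fun h => hw1.1 h.symm, ?_⟩
  rw [← hEq]
  exact hE1

theorem hHBD (hRGF : StRGF) (hEXK : StEXK) (hCDR : StCDR) : StHBD := by
  intro U _ G t hB ht
  have ht' : (1 : ℝ) ≤ t := by exact_mod_cast ht
  refine ⟨((t : ℝ) - 1) / 3 + 1 + (sN 2 G : ℝ), ?_, ?_⟩
  · have : 0 ≤ ((t : ℝ) - 1) / 3 := by linarith
    positivity
  have hB' : Bp G (Nat.choose 3 2) t := hB
  filter_upwards [hEXK 3 t le_rfl ht U G hB' 1 one_pos] with n hn H hF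
  set Γ : SimpleGraph (Fin n) := Γr 2 G H with hΓ
  have hfree : G.Free Γ := hRGF 2 (by norm_num) U G (Fin n) H hF
  have hH3 : ∀ E ∈ H, E.card = 3 := hF.1
  -- cliques
  have h1 : (H.filter fun E => Cq Γ E).card ≤ exK n 3 G := by
    refine (card_le_card ?_).trans (le_exK n 3 G Γ hfree)
    intro E hE
    simp only [mem_filter] at hE
    rw [mem_cliqueFinset_iff, isNClique_iff]
    refine ⟨?_, hH3 E hE.1⟩
    intro a ha b hb hab
    exact hE.2 a (by simpa using ha) b (by simpa using hb) hab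
  have h2 : ((H.filter fun E => Cq Γ E).card : ℝ) ≤ (((t : ℝ) - 1) / 3 + 1) * (n : ℝ) ^ 2 := by
    have h3 : ((H.filter fun E => Cq Γ E).card : ℝ) ≤ (exK n 3 G : ℝ) := by exact_mod_cast h1
    have h4 : ((n.choose 2 : ℕ) : ℝ) ≤ (n : ℝ) ^ 2 := by exact_mod_cast Nat.choose_le_pow n 2
    refine h3.trans (hn.trans ?_)
    have h5 : (3 : ℕ) - 1 = 2 := rfl
    rw [h5]
    have h6 : 0 ≤ ((t : ℝ) - 1) / ((3 : ℕ) : ℝ) + 1 := by
      have : 0 ≤ ((t : ℝ) - 1) / ((3 : ℕ) : ℝ) := by
        apply div_nonneg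
        · linarith
        · positivity
      linarith
    have h7 := mul_le_mul_of_nonneg_left h4 h6
    push_cast at h7 ⊢
    exact h7
  -- the other edges
  have h8 : (H.filter fun E => ¬ Cq Γ E).card ≤ sN 2 G * n ^ 2 := by
    have h9 : (H.filter fun E => ¬ Cq Γ E) ⊆
        ((univ : Finset (Fin n × Fin n)).filter fun p => p.1 ≠ p.2 ∧ cd H p.1 p.2 < sN 2 G).biUnion
          fun p => H.filter fun E => p.1 ∈ E ∧ p.2 ∈ E := by
      intro E hE
      simp only [mem_filter] at hE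
      obtain ⟨hE1, hE2⟩ := hE
      unfold Cq at hE2
      push Not at hE2
      obtain ⟨u, hu, v, hv, huv, hadj⟩ := hE2
      simp only [mem_biUnion, mem_filter, mem_univ, true_and]
      refine ⟨(u, v), ⟨huv, ?_⟩, hE1, hu, hv⟩
      by_contra hge
      rw [not_lt] at hge
      exact hadj ⟨huv, (hCDR (Fin n) H hH3 (sN 2 G) u v huv).2 hge⟩
    refine (card_le_card h9).trans (card_biUnion_le.trans ?_)
    have h10 : ∀ p ∈ ((univ : Finset (Fin n × Fin n)).filter fun p =>
        p.1 ≠ p.2 ∧ cd H p.1 p.2 < sN 2 G),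
        (H.filter fun E => p.1 ∈ E ∧ p.2 ∈ E).card ≤ sN 2 G := by
      intro p hp
      simp only [mem_filter, mem_univ, true_and] at hp
      refine le_trans (le_of_eq ?_) ((card_pair_le H hH3 p.1 p.2 hp.1).trans hp.2.le)
      congr 1
      ext E
      simp only [mem_filter]
    refine (Finset.sum_le_sum h10).trans ?_
    rw [Finset.sum_const, smul_eq_mul, mul_comm]
    refine Nat.mul_le_mul_left _ ((card_filter_le _ _).trans ?_)
    rw [Finset.card_univ, Fintype.card_prod, Fintype.card_fin]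
    exact (sq n).ge
  have h11 : H.card = (H.filter fun E => Cq Γ E).card + (H.filter fun E => ¬ Cq Γ E).card :=
    (card_filter_add_card_filter_not (s := H) (fun E => Cq Γ E)).symm
  have h12 : ((H.filter fun E => ¬ Cq Γ E).card : ℝ) ≤ (sN 2 G : ℝ) * (n : ℝ) ^ 2 := by
    exact_mod_cast h8
  rw [h11]
  push_cast
  linarith [h2, h12, add_mul (((t : ℝ) - 1) / 3 + 1) (sN 2 G : ℝ) ((n : ℝ) ^ 2)]

end Pool.Agent.Helper31.KT
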