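import Pool.Agent.Helper31.KT.M_WB

/-!
# Project KT: module LO (last arc, odd girth)
-/

set_option autoImplicit false

namespace Pool.Agent.Helper31.KT

open Pool.Agent.Helper26.Kempe Pool.Agent.Helper52.KT Pool.Agent.Helper52.KT.St
open Pool.Agent.Helper52.KR (N Zc Mn Hs)
open scoped Classical

theorem Wk_walk {V : Type} [Fintype V] {k : ℕ} {G : SimpleGraph V} {f : V → Fin k} {M : ℕ} {z : V}
    {c : Fin k} (hf : Proper G f) (hc : c ≠ f z) : ∀ (n : ℕ) (x : V), x ∈ Wk G f M z c n →
      ∃ w : G.Walk z x, w.length = n ∧ (Even n → f x = f z) ∧ (Odd n → f x = c) := by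
  intro n
  induction n with
  | zero =>
    intro x hx
    simp only [Wk, Finset.mem_singleton] at hx
    subst hx
    exact ⟨SimpleGraph.Walk.nil, rfl, fun _ => rfl, fun h => absurd h (by decide)⟩
  | succ n ih =>
    intro x hx
    obtain ⟨y, hy, hyx, hcol, _⟩ := mem_Wk_succ.1 hx
    obtain ⟨w, hw, h1, h2⟩ := ih y hy
    have hne : f y ≠ f x := hf y x hyx
    refine ⟨w.concat hyx, by rw [SimpleGraph.Walk.length_concat, hw], ?_, ?_⟩
    · intro he
      have ho : Odd n := by
        rcases Nat.even_or_odd n with h | h
        · exact absurd he (by rw [Nat.even_add_one]; exact fun h' => h' h)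
        · exact h
      rcases hcol with h | h
      · exact h
      · exact absurd ((h2 ho).trans h.symm) hne
    · intro ho
      have he : Even n := by
        rcases Nat.even_or_odd n with h | h
        · exact h
        · exact absurd ho (by rw [Nat.odd_add_one]; exact fun h' => h' h)
      rcases hcol with h | h
      · exact absurd ((h1 he).trans h.symm) hne
      · exact h

theorem hLO : LO := by
  intro V _ k G W M f o z y0 L c x n hf hodd hV hcz hcy hn hx κ hκ hadj heq
  obtain ⟨harc, _, _, _⟩ := vd_cons.1 hV
  obtain ⟨hyz, _, hcard, _, _⟩ := harc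
  have hne : f y0 ≠ f z := hf y0 z hyz
  have hκc := Bc_col hκ
  -- colours
  have hfx : f x = c := by
    rcases Wk_col hx with h | h
    · exfalso
      rw [h, Equiv.swap_apply_left] at heq
      rcases hκc with h1 | h1
      · rw [h1, Equiv.swap_apply_left] at heq
        exact hcz heq
      · rw [h1, Equiv.swap_apply_right] at heq
        exact hcy heq
    · exact h
  have hfκ : f κ = f y0 := by
    rcases hκc with h1 | h1
    · exact h1
    · exfalso
      rw [hfx, Equiv.swap_apply_right, h1, Equiv.swap_apply_right] at heq
      exact hne heq.symm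
  obtain ⟨w1, hw1, he1, _⟩ := Wk_walk hf hcz n x hx
  have hnodd : Odd n := by
    rcases Nat.even_or_odd n with h | h
    · exfalso
      have := he1 h
      rw [hfx] at this
      exact hcz this
    · exact h
  obtain ⟨m, hm, w2, hw2, _, ho2⟩ := Bc_layer (G := G) (f := f) (a := y0) (b := z)
    (fun m x => ∃ w : G.Walk y0 x, w.length = m ∧ (Even m → f x = f y0) ∧ (Odd m → f x = f z))
    ⟨SimpleGraph.Walk.nil, rfl, fun _ => rfl, fun h => absurd h (by decide)⟩
    (by
      rintro m x y hxB ⟨w, hw, h1, h2⟩ hxy hyz hcol
      have hne : f x ≠ f y := hf x y hxy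
      refine ⟨w.concat hxy, by rw [SimpleGraph.Walk.length_concat, hw], ?_, ?_⟩
      · intro he
        have ho : Odd m := by
          rcases Nat.even_or_odd m with h | h
          · exact absurd he (by rw [Nat.even_add_one]; exact fun h' => h' h)
          · exact h
        rcases hcol with h | h
        · exact h
        · exact absurd ((h2 ho).trans h.symm) hne
      · intro ho
        have he : Even m := by
          rcases Nat.even_or_odd m with h | h
          · exact h
          · exact absurd ho (by rw [Nat.odd_add_one]; exact fun h' => h' h)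
        rcases hcol with h | h
        · exact absurd ((h1 he).trans h.symm) hne
        · exact h) κ hκ
  have hmeven : Even m := by
    rcases Nat.even_or_odd m with h | h
    · exact h
    · exfalso
      have := ho2 h
      rw [hfκ] at this
      exact hne this
  obtain ⟨w, hw⟩ : ∃ w : G.Walk z z, w.length = n + 1 + m + 1 := by
    refine ⟨((w1.concat hadj.symm).append w2.reverse).concat hyz, ?_⟩
    rw [SimpleGraph.Walk.length_concat, SimpleGraph.Walk.length_append,
      SimpleGraph.Walk.length_concat, SimpleGraph.Walk.length_reverse, hw1, hw2]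
  have hwodd : Odd w.length := by
    rw [hw]
    obtain ⟨i, hi⟩ := hnodd
    obtain ⟨j, hj⟩ := hmeven
    exact ⟨i + j + 1, by omega⟩
  have := hodd z w hwodd
  omega

end Pool.Agent.Helper31.KT
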