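import Pool.Agent.Helper7.KT.St

set_option autoImplicit false

namespace Pool.Agent.Helper31.KT

open Finset SimpleGraph Filter Topology
open EX Pool.Agent.Helper7.KT
open scoped Classical

/-- conflicts -/
def Cf {n s : ℕ} (c : Fin n → Fin n → Fin n) (v : Fin s → Fin n) (u u' : Fin n) : Prop :=
  (∃ i j, c u (v i) = c u' (v j)) ∨ (∃ i, c u (v i) = u') ∨ ∃ i, c u' (v i) = u

theorem Cf.symm' {n s : ℕ} (c : Fin n → Fin n → Fin n) (v : Fin s → Fin n) (u u' : Fin n)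
    (h : Cf c v u u') : Cf c v u' u := by
  rcases h with ⟨i, j, h⟩ | h | h
  · exact Or.inl ⟨j, i, h.symm⟩
  · exact Or.inr (Or.inr h)
  · exact Or.inr (Or.inl h)

theorem cf_deg {n s : ℕ} (E : Finset (Fin n × Fin n)) (c : Fin n → Fin n → Fin n)
    (v : Fin s → Fin n) (B : ℝ)
    (h3 : ∀ v z, ((univ.filter fun u => (u, v) ∈ E ∧ c u v = z).card : ℝ) ≤ B)
    (Z : Finset (Fin n)) (hZ : ∀ u ∈ Z, ∀ i, (u, v i) ∈ E) (u : Fin n) :
    ∃ D : Finset (Fin n), (D.card : ℝ) ≤ ((s : ℝ) ^ 2 + s) * B + s ∧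
      ∀ u' ∈ Z, u' ≠ u → Cf c v u u' → u' ∈ D := by
  set D1 : Finset (Fin n) := (univ : Finset (Fin s × Fin s)).biUnion fun p =>
    univ.filter fun u' => (u', v p.2) ∈ E ∧ c u' (v p.2) = c u (v p.1) with hD1
  set D2 : Finset (Fin n) := (univ : Finset (Fin s)).image fun i => c u (v i) with hD2
  set D3 : Finset (Fin n) := (univ : Finset (Fin s)).biUnion fun i =>
    univ.filter fun u' => (u', v i) ∈ E ∧ c u' (v i) = u with hD3
  have hc1 : (D1.card : ℝ) ≤ (s : ℝ) ^ 2 * B := by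
    have h1 : (D1.card : ℝ) ≤ ∑ p : Fin s × Fin s,
        ((univ.filter fun u' => (u', v p.2) ∈ E ∧ c u' (v p.2) = c u (v p.1)).card : ℝ) := by
      exact_mod_cast card_biUnion_le
    refine h1.trans ((Finset.sum_le_sum fun p _ => h3 (v p.2) (c u (v p.1))).trans ?_)
    rw [Finset.sum_const, Finset.card_univ, Fintype.card_prod, Fintype.card_fin, nsmul_eq_mul]
    push_cast
    apply le_of_eq
    ring
  have hc2 : (D2.card : ℝ) ≤ s := by
    have h1 : D2.card ≤ s := by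
      have := card_image_le (s := (univ : Finset (Fin s))) (f := fun i => c u (v i))
      rwa [Finset.card_univ, Fintype.card_fin] at this
    exact_mod_cast h1
  have hc3 : (D3.card : ℝ) ≤ (s : ℝ) * B := by
    have h1 : (D3.card : ℝ) ≤ ∑ i : Fin s,
        ((univ.filter fun u' => (u', v i) ∈ E ∧ c u' (v i) = u).card : ℝ) := by
      exact_mod_cast card_biUnion_le
    refine h1.trans ((Finset.sum_le_sum fun i _ => h3 (v i) u).trans ?_)
    rw [Finset.sum_const, Finset.card_univ, Fintype.card_fin, nsmul_eq_mul]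
  refine ⟨D1 ∪ (D2 ∪ D3), ?_, ?_⟩
  · have h1 : ((D1 ∪ (D2 ∪ D3)).card : ℝ) ≤ (D1.card : ℝ) + (D2.card + D3.card) := by
      exact_mod_cast (card_union_le _ _).trans (Nat.add_le_add_left (card_union_le _ _) _)
    linarith
  · intro u' hu' _ hC
    rcases hC with ⟨i, j, h⟩ | ⟨i, h⟩ | ⟨i, h⟩
    · refine mem_union_left _ ?_
      rw [hD1]
      simp only [mem_biUnion, mem_filter, mem_univ, true_and, Prod.exists]
      exact ⟨i, j, hZ u' hu' j, h.symm⟩
    · refine mem_union_right _ (mem_union_left _ ?_)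
      rw [hD2]
      exact mem_image.2 ⟨i, mem_univ _, h⟩
    · refine mem_union_right _ (mem_union_right _ ?_)
      rw [hD3]
      simp only [mem_biUnion, mem_filter, mem_univ, true_and]
      exact ⟨i, hZ u' hu' i, h⟩

theorem hRBW (hRBC : StRBC) (hEMT : StEMT) : StRBW := by
  intro U _ G s t hB η hη
  obtain ⟨δ1, hδ1, hR⟩ := hRBC s η hη
  have hηs : 0 < η ^ s := by positivity
  have hden : (0 : ℝ) < 16 * (((s : ℝ) ^ 2 + s + 1) * ((t : ℝ) + 1)) := by positivity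
  refine ⟨min δ1 (η ^ s / (16 * (((s : ℝ) ^ 2 + s + 1) * ((t : ℝ) + 1)))), lt_min hδ1
    (div_pos hηs hden), ?_⟩
  intro δ' hδ' hle
  have hle1 : δ' ≤ δ1 := hle.trans (min_le_left _ _)
  have hle2 : δ' ≤ η ^ s / (16 * (((s : ℝ) ^ 2 + s + 1) * ((t : ℝ) + 1))) :=
    hle.trans (min_le_right _ _)
  rw [le_div_iff₀ hden] at hle2
  filter_upwards [hR δ' hδ' hle1,
    eventually_ge_atTop ⌈((t : ℝ) * (s + 1) + s) / (3 * η ^ s / 16)⌉₊] with n hn hn2
  intro H hH E c h1 h2 h3 h4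
  have hbig : (t : ℝ) * (s + 1) + s ≤ 3 * η ^ s / 16 * n := by
    have h5 : ((t : ℝ) * (s + 1) + s) / (3 * η ^ s / 16) ≤ n :=
      (Nat.le_ceil _).trans (by exact_mod_cast hn2)
    have h6 : (0 : ℝ) < 3 * η ^ s / 16 := by positivity
    rw [div_le_iff₀ h6] at h5
    linarith
  have hcv : ∀ u v, (u, v) ∈ E → c u v ≠ v := fun u v h => (h1 u v h).2.2.1.symm
  obtain ⟨v, hv, hcard⟩ := hn E c hcv h2 h4
  set Z0 : Finset (Fin n) := univ.filter fun u => (∀ i, (u, v i) ∈ E) ∧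
        (∀ i j, i ≠ j → c u (v i) ≠ c u (v j)) ∧ ∀ i j, c u (v i) ≠ v j with hZ0
  set Z : Finset (Fin n) := Z0 \ univ.image v with hZ
  have hZmem : ∀ u ∈ Z, (∀ i, (u, v i) ∈ E) ∧
        (∀ i j, i ≠ j → c u (v i) ≠ c u (v j)) ∧ (∀ i j, c u (v i) ≠ v j) ∧ ∀ i, v i ≠ u := by
    intro u hu
    rw [hZ, Finset.mem_sdiff] at hu
    obtain ⟨hu1, hu2⟩ := hu
    rw [hZ0] at hu1
    simp only [mem_filter, mem_univ, true_and] at hu1
    refine ⟨hu1.1, hu1.2.1, hu1.2.2, fun i hi => hu2 ?_⟩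
    exact mem_image.2 ⟨i, mem_univ _, hi⟩
  have hZcard : η ^ s / 4 * n - s ≤ (Z.card : ℝ) := by
    have h5 : Z0.card ≤ Z.card + (univ.image v).card :=
      card_le_card_sdiff_add_card
    have h6 : (univ.image v).card ≤ s := by
      have := card_image_le (s := (univ : Finset (Fin s))) (f := v)
      rwa [Finset.card_univ, Fintype.card_fin] at this
    have h7 : (Z0.card : ℝ) ≤ Z.card + s := by exact_mod_cast h5.trans (Nat.add_le_add_left h6 _)
    linarith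
  set d : ℕ := ⌊((s : ℝ) ^ 2 + s) * (δ' * n) + s⌋₊ with hd
  have hnn : (0 : ℝ) ≤ n := Nat.cast_nonneg n
  have hd0 : (0 : ℝ) ≤ ((s : ℝ) ^ 2 + s) * (δ' * n) + s := by positivity
  have hdle : (d : ℝ) ≤ ((s : ℝ) ^ 2 + s) * (δ' * n) + s := Nat.floor_le hd0
  have hdeg : ∀ y ∈ Z, ∃ D : Finset (Fin n), D.card ≤ d ∧
        ∀ y' ∈ Z, y' ≠ y → Cf c v y y' → y' ∈ D := by
    intro y _
    obtain ⟨D, hD1, hD2⟩ := cf_deg E c v (δ' * n) h3 Z (fun u hu => (hZmem u hu).1) y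
    exact ⟨D, Nat.le_floor hD1, hD2⟩
  have hsize : t * (d + 1) ≤ Z.card := by
    have h5 : (t : ℝ) * ((d : ℝ) + 1) ≤ (Z.card : ℝ) := by
      refine le_trans ?_ hZcard
      have ht0 : (0 : ℝ) ≤ t := Nat.cast_nonneg t
      have hs0 : (0 : ℝ) ≤ s := Nat.cast_nonneg s
      have h6 : (t : ℝ) * ((d : ℝ) + 1) ≤ t * (((s : ℝ) ^ 2 + s) * (δ' * n) + s + 1) :=
        mul_le_mul_of_nonneg_left (by linarith) ht0
      have h7 : (t : ℝ) * (((s : ℝ) ^ 2 + s) * δ') ≤ η ^ s / 16 := by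
        have h8 : (t : ℝ) * (((s : ℝ) ^ 2 + s) * δ') ≤
            δ' * (((s : ℝ) ^ 2 + s + 1) * ((t : ℝ) + 1)) := by
          have h9 : 0 ≤ δ' * ((s : ℝ) ^ 2 + s) := by positivity
          have h10 : 0 ≤ δ' * t := by positivity
          nlinarith
        linarith
      have h11 := mul_le_mul_of_nonneg_right h7 hnn
      nlinarith
    exact_mod_cast h5
  obtain ⟨Z', hZ', hcZ', hind⟩ := FB.indep (Cf c v) (fun y y' h => Cf.symm' c v y y' h) d t Z hdeg hsize
  set e := Z'.equivFinOfCardEq hcZ' with he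
  set u : Fin t → Fin n := fun j => (e.symm j : Fin n) with hu
  have huinj : Function.Injective u := fun a b h => e.symm.injective (Subtype.ext h)
  have huZ' : ∀ j, u j ∈ Z' := fun j => (e.symm j).2
  have huZ : ∀ j, u j ∈ Z := fun j => hZ' (huZ' j)
  refine hEMT U G s t hB (Fin n) H hH v u hv huinj (fun i j => (hZmem (u j) (huZ j)).2.2.2 i)
    (fun _ _ => True) (fun i j => c (u j) (v i)) ?_ ?_ ?_ ?_ ?_
  · intro i j _
    exact t3_swap H _ _ _ (h1 (u j) (v i) ((hZmem (u j) (huZ j)).1 i))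
  · intro i j i' j' _ _ h
    have hj : j = j' := by
      by_contra hne
      exact hind (u j) (huZ' j) (u j') (huZ' j') (fun h' => hne (huinj h')) (Or.inl ⟨i, i', h⟩)
    subst hj
    refine ⟨?_, rfl⟩
    by_contra hne
    exact (hZmem (u j) (huZ j)).2.1 i i' hne h
  · intro i j i' _
    exact (hZmem (u j) (huZ j)).2.2.1 i i'
  · intro i j j' _ h
    by_cases hj : j = j'
    · subst hj
      exact (h1 (u j) (v i) ((hZmem (u j) (huZ j)).1 i)).2.1 h.symm
    · exact hind (u j) (huZ' j) (u j') (huZ' j') (fun h' => hj (huinj h'))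
        (Or.inr (Or.inl ⟨i, h⟩))
  · intro i j h
    exact absurd trivial h

end Pool.Agent.Helper31.KT
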