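import Pool.Agent.Helper52.KT.St

/-!
# Project KT: module WB (small sides are reached by short walks)
-/

set_option autoImplicit false

namespace Pool.Agent.Helper31.KT

open Pool.Agent.Helper26.Kempe Pool.Agent.Helper52.KT Pool.Agent.Helper52.KT.St
open Pool.Agent.Helper52.KR (N Zc Mn Hs)
open scoped Classical

/-- vertices reached in at most `n` steps -/
noncomputable def Lay {V : Type} [Fintype V] (r : V → V → Prop) (a : V) : ℕ → Finset V
  | 0 => {a}
  | n + 1 => Lay r a n ∪ Finset.univ.filter (fun y => ∃ x ∈ Lay r a n, r x y)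

theorem Lay_induct {V : Type} [Fintype V] (r : V → V → Prop) (a : V) (P : ℕ → V → Prop)
    (h0 : P 0 a) (hs : ∀ m x y, Relation.ReflTransGen r a x → P m x → r x y → P (m + 1) y) :
    ∀ n, ∀ x ∈ Lay r a n, Relation.ReflTransGen r a x ∧ ∃ m, m ≤ n ∧ P m x := by
  intro n
  induction n with
  | zero =>
    intro x hx
    simp only [Lay, Finset.mem_singleton] at hx
    subst hx
    exact ⟨Relation.ReflTransGen.refl, 0, le_rfl, h0⟩
  | succ n ih =>
    intro x hx
    simp only [Lay, Finset.mem_union, Finset.mem_filter, Finset.mem_univ, true_and] at hx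
    rcases hx with hx | ⟨y, hy, hyx⟩
    · obtain ⟨h1, m, h2, h3⟩ := ih x hx
      exact ⟨h1, m, by omega, h3⟩
    · obtain ⟨h1, m, h2, h3⟩ := ih y hy
      exact ⟨h1.tail hyx, m + 1, by omega, hs m y x h1 h3 hyx⟩

theorem Lay_card {V : Type} [Fintype V] (r : V → V → Prop) (a : V) (n : ℕ) :
    n + 1 ≤ (Lay r a n).card ∨ ∀ x, Relation.ReflTransGen r a x → x ∈ Lay r a n := by
  induction n with
  | zero => left; simp [Lay]
  | succ n ih =>
    rcases ih with ih | ih
    · by_cases h : Lay r a (n + 1) = Lay r a n
      · right
        have ha : ∀ m, a ∈ Lay r a m := by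
          intro m
          induction m with
          | zero => simp [Lay]
          | succ m ihm => simp only [Lay, Finset.mem_union]; left; exact ihm
        intro x hx
        rw [h]
        induction hx with
        | refl => exact ha n
        | tail h1 h2 ih2 =>
          rw [← h]
          simp only [Lay, Finset.mem_union, Finset.mem_filter, Finset.mem_univ, true_and]
          right
          exact ⟨_, ih2, h2⟩
      · left
        have hsub : Lay r a n ⊆ Lay r a (n + 1) := by
          intro x hx
          simp only [Lay, Finset.mem_union]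
          left; exact hx
        have h1 : (Lay r a n).card < (Lay r a (n + 1)).card :=
          Finset.card_lt_card (lt_of_le_of_ne hsub (Ne.symm h))
        omega
    · right
      intro x hx
      simp only [Lay, Finset.mem_union]
      left; exact ih x hx

/-- Every vertex of a side is reached by a short walk inside the side. -/
theorem Bc_layer {V : Type} [Fintype V] {k : ℕ} {G : SimpleGraph V} {f : V → Fin k} {a b : V}
    (P : ℕ → V → Prop) (h0 : P 0 a)
    (hs : ∀ m x y, x ∈ Bc G f a b → P m x → G.Adj x y → y ≠ b → (f y = f a ∨ f y = f b) →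
      P (m + 1) y) :
    ∀ x ∈ Bc G f a b, ∃ m, m + 1 ≤ (Bc G f a b).card ∧ P m x := by
  intro x hx
  obtain ⟨r, hr⟩ : ∃ r : V → V → Prop, r = fun y z => G.Adj y z ∧ z ≠ b ∧ (f z = f a ∨ f z = f b) :=
    ⟨_, rfl⟩
  have hmem : ∀ y, y ∈ Bc G f a b ↔ Relation.ReflTransGen r a y := by
    intro y; rw [hr]; exact mem_Bc
  have hind := Lay_induct r a P h0 (by
    intro m x y h1 h2 h3
    have h4 : G.Adj x y ∧ y ≠ b ∧ (f y = f a ∨ f y = f b) := by rw [hr] at h3; exact h3
    exact hs m x y ((hmem x).2 h1) h2 h4.1 h4.2.1 h4.2.2)
  have hpos : 0 < (Bc G f a b).card := Finset.card_pos.2 ⟨x, hx⟩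
  obtain ⟨n, hn⟩ : ∃ n, n + 1 = (Bc G f a b).card := ⟨(Bc G f a b).card - 1, by omega⟩
  have hsub : Lay r a n ⊆ Bc G f a b := fun y hy => (hmem y).2 (hind n y hy).1
  have hall : x ∈ Lay r a n := by
    rcases Lay_card r a n with h | h
    · have h1 : Lay r a n = Bc G f a b := Finset.eq_of_subset_of_card_le hsub (by omega)
      rw [h1]; exact hx
    · exact h x ((hmem x).1 hx)
  obtain ⟨_, m, h1, h2⟩ := hind n x hall
  exact ⟨m, by omega, h2⟩

theorem hWB : WB := by
  intro V _ k G f M z c hf hc
  refine ⟨?_, ?_⟩
  · intro b hb hcard x hx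
    obtain ⟨hzb, hfb⟩ := mem_S.1 hb
    obtain ⟨m, h1, h2⟩ := Bc_layer (a := z) (b := b) (fun m y => y ∈ Wk G f M z c m)
      (by simp [Wk]) (by
        intro m x y hxB hxW hxy hyb hcol
        rw [mem_Wk_succ]
        refine ⟨x, hxW, hxy, ?_, ?_⟩
        · rw [hfb] at hcol; exact hcol
        · have hy : y ∈ Bc G f z b := Bc_step hxB hxy hyb hcol
          have hsub : S G f y (f x) ⊆ insert b (Bc G f z b) := by
            intro w hw
            obtain ⟨h3, h4⟩ := mem_S.1 hw
            rw [Finset.mem_insert]
            by_cases hwb : w = b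
            · left; exact hwb
            · right
              exact Bc_step hy h3 hwb (by rw [h4]; exact Bc_col hxB)
          have h5 := Finset.card_le_card hsub
          have h6 := Finset.card_insert_le b (Bc G f z b)
          omega) x hx
    exact ⟨m, by omega, h2⟩
  · intro y hy hcard x hx
    obtain ⟨hzy, hfy⟩ := mem_S.1 hy
    obtain ⟨m, h1, h2⟩ := Bc_layer (a := y) (b := z) (fun m y => y ∈ Wk G f M z c (m + 1))
      (by
        rw [mem_Wk_succ]
        refine ⟨z, by simp [Wk], hzy, Or.inr hfy, ?_⟩
        have hsub : S G f y (f z) ⊆ insert z (Bc G f y z) := by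
          intro w hw
          obtain ⟨h3, h4⟩ := mem_S.1 hw
          rw [Finset.mem_insert]
          by_cases hwb : w = z
          · left; exact hwb
          · right
            exact Bc_step (self_mem_Bc y z) h3 hwb (Or.inr h4)
        have h5 := Finset.card_le_card hsub
        have h6 := Finset.card_insert_le z (Bc G f y z)
        omega) (by
        intro m x w hxB hxW hxw hwz hcol
        rw [mem_Wk_succ]
        refine ⟨x, hxW, hxw, ?_, ?_⟩
        · rw [hfy] at hcol; exact hcol.symm
        · have hw : w ∈ Bc G f y z := Bc_step hxB hxw hwz hcol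
          have hsub : S G f w (f x) ⊆ insert z (Bc G f y z) := by
            intro u hu
            obtain ⟨h3, h4⟩ := mem_S.1 hu
            rw [Finset.mem_insert]
            by_cases huz : u = z
            · left; exact huz
            · right
              exact Bc_step hw h3 huz (by rw [h4]; exact Bc_col hxB)
          have h5 := Finset.card_le_card hsub
          have h6 := Finset.card_insert_le z (Bc G f y z)
          omega) x hx
    exact ⟨m + 1, by omega, h2⟩

end Pool.Agent.Helper31.KT
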